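import Pool.Agent.Helper76.GT.St

/-!
# MP_b731ff_al, project GT, module ISO
-/

set_option autoImplicit false

namespace Pool.Agent.Helper93.GT

open Pool.Agent.Helper76.GT Filter
open scoped Pointwise

universe u

section

variable {H : Type u} [Group H] {E : Type u} [NormedAddCommGroup E] [NormedSpace ℝ E]
  (ρ : H →* (E →L[ℝ] E))

include ρ in
theorem norm_left (hρ : ∀ g v, ‖ρ g v‖ = ‖v‖) (g : H) (A : E →L[ℝ] E) : ‖ρ g * A‖ = ‖A‖ :=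
  ContinuousLinearMap.opNorm_ext _ _ fun x => hρ g (A x)

theorem norm_le (hρ : ∀ g v, ‖ρ g v‖ = ‖v‖) (g : H) : ‖ρ g‖ ≤ 1 :=
  ContinuousLinearMap.opNorm_le_bound _ zero_le_one fun x => by rw [hρ, one_mul]

theorem rho_inv (g : H) : ρ g⁻¹ * ρ g = 1 := by rw [← map_mul, inv_mul_cancel, map_one]

theorem rho_inv' (g : H) : ρ g * ρ g⁻¹ = 1 := by rw [← map_mul, mul_inv_cancel, map_one]

theorem norm_right (hρ : ∀ g v, ‖ρ g v‖ = ‖v‖) (g : H) (A : E →L[ℝ] E) : ‖A * ρ g‖ = ‖A‖ := by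
  have h1 : ∀ (g : H) (A : E →L[ℝ] E), ‖A * ρ g‖ ≤ ‖A‖ := by
    intro g A
    calc ‖A * ρ g‖ ≤ ‖A‖ * ‖ρ g‖ := norm_mul_le _ _
      _ ≤ ‖A‖ * 1 := mul_le_mul_of_nonneg_left (norm_le ρ hρ g) (norm_nonneg _)
      _ = ‖A‖ := mul_one _
  refine le_antisymm (h1 g A) ?_
  have h2 := h1 g⁻¹ (A * ρ g)
  rwa [mul_assoc, rho_inv', mul_one] at h2

theorem nu_mul (hρ : ∀ g v, ‖ρ g v‖ = ‖v‖) (g h : H) :
    ‖ρ (g * h) - 1‖ ≤ ‖ρ g - 1‖ + ‖ρ h - 1‖ := by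
  have e : ρ (g * h) - 1 = ρ g * (ρ h - 1) + (ρ g - 1) := by
    rw [map_mul, mul_sub, mul_one]; abel
  rw [e]
  refine (norm_add_le _ _).trans ?_
  rw [norm_left ρ hρ]
  exact le_of_eq (add_comm _ _)

theorem nu_pow_le (hρ : ∀ g v, ‖ρ g v‖ = ‖v‖) (g : H) (n : ℕ) :
    ‖ρ (g ^ n) - 1‖ ≤ n * ‖ρ g - 1‖ := by
  induction n with
  | zero => simp
  | succ n ih =>
    rw [pow_succ]
    refine (nu_mul ρ hρ _ _).trans ?_
    push_cast
    linarith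

theorem nu_pow_err (hρ : ∀ g v, ‖ρ g v‖ = ‖v‖) (g : H) (n : ℕ) :
    ‖(ρ (g ^ n) - 1) - (n : ℝ) • (ρ g - 1)‖ ≤ (n : ℝ) ^ 2 * ‖ρ g - 1‖ ^ 2 := by
  induction n with
  | zero => simp
  | succ n ih =>
    have e : (ρ (g ^ (n + 1)) - 1) - ((n + 1 : ℕ) : ℝ) • (ρ g - 1) =
        ((ρ (g ^ n) - 1) - (n : ℝ) • (ρ g - 1)) + (ρ (g ^ n) - 1) * (ρ g - 1) := by
      rw [pow_succ, map_mul]
      push_cast
      rw [add_smul, one_smul, mul_sub, sub_mul, mul_one, one_mul]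
      abel
    rw [e]
    have h1 : ‖(ρ (g ^ n) - 1) * (ρ g - 1)‖ ≤ n * ‖ρ g - 1‖ * ‖ρ g - 1‖ :=
      (norm_mul_le _ _).trans (mul_le_mul_of_nonneg_right (nu_pow_le ρ hρ g n) (norm_nonneg _))
    refine (norm_add_le _ _).trans ?_
    have h2 : 0 ≤ ‖ρ g - 1‖ ^ 2 := by positivity
    have h3 : (0 : ℝ) ≤ n := Nat.cast_nonneg _
    push_cast
    nlinarith [mul_nonneg h3 h2]

end

/-- module ISO -/
theorem pISO (H : Type u) [Group H] : ISO H := by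
  intro E _ _ _ ρ hρ
  refine ⟨fun g => norm_nonneg _, ?_, nu_mul ρ hρ, ?_, ?_, ?_, ?_, ?_⟩
  · simp
  · intro g
    have e : ρ g⁻¹ - 1 = ρ g⁻¹ * (1 - ρ g) := by
      rw [mul_sub, mul_one, rho_inv]
    rw [e, norm_left ρ hρ, norm_sub_rev]
  · intro g h
    have e : ρ (h * g * h⁻¹) - 1 = ρ h * (ρ g - 1) * ρ h⁻¹ := by
      rw [map_mul, map_mul, mul_sub, sub_mul, mul_one, rho_inv']
    rw [e, norm_right ρ hρ, norm_left ρ hρ]
  · intro g h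
    have e : ρ (g * h * g⁻¹ * h⁻¹) - 1 =
        ((ρ g - 1) * (ρ h - 1) - (ρ h - 1) * (ρ g - 1)) * ρ (g⁻¹ * h⁻¹) := by
      have e1 : (ρ g - 1) * (ρ h - 1) - (ρ h - 1) * (ρ g - 1) = ρ g * ρ h - ρ h * ρ g := by
        noncomm_ring
      have e2 : ρ h * ρ g * ρ (g⁻¹ * h⁻¹) = 1 := by
        rw [map_mul, mul_assoc, ← mul_assoc (ρ g), rho_inv', one_mul, rho_inv']
      rw [e1, sub_mul, e2, ← map_mul, ← map_mul, mul_assoc (g * h)]
    rw [e, norm_right ρ hρ]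
    refine (norm_sub_le _ _).trans ?_
    have h1 : ‖(ρ g - 1) * (ρ h - 1)‖ ≤ ‖ρ g - 1‖ * ‖ρ h - 1‖ := norm_mul_le _ _
    have h2 : ‖(ρ h - 1) * (ρ g - 1)‖ ≤ ‖ρ h - 1‖ * ‖ρ g - 1‖ := norm_mul_le _ _
    nlinarith
  · intro g n
    have h1 := nu_pow_err ρ hρ g n
    have h2 : ‖(n : ℝ) • (ρ g - 1)‖ = n * ‖ρ g - 1‖ := by
      rw [norm_smul, Real.norm_eq_abs, Nat.abs_cast]
    have h3 := norm_sub_norm_le ((n : ℝ) • (ρ g - 1)) (ρ (g ^ n) - 1)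
    rw [norm_sub_rev] at h1
    rw [h2] at h3
    linarith
  · intro ε hε
    classical
    haveI : ProperSpace (E →L[ℝ] E) := FiniteDimensional.proper ℝ (E →L[ℝ] E)
    have hsub : Set.range (fun g : H => ρ g) ⊆ Metric.closedBall (0 : E →L[ℝ] E) 1 := by
      rintro _ ⟨g, rfl⟩
      rw [mem_closedBall_zero_iff]
      exact norm_le ρ hρ g
    have htb : TotallyBounded (Set.range (fun g : H => ρ g)) :=
      (isCompact_closedBall (0 : E →L[ℝ] E) 1).totallyBounded.subset hsub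
    obtain ⟨t, ht, htf, hcov⟩ := htb.exists_subset (Metric.dist_mem_uniformity hε)
    refine ⟨htf.toFinset.image (Function.invFun (fun g : H => ρ g)), ?_⟩
    intro g
    have hg := hcov ⟨g, rfl⟩
    rw [Set.mem_iUnion₂] at hg
    obtain ⟨y, hy, hgy⟩ := hg
    have hinv : ρ (Function.invFun (fun g : H => ρ g) y) = y := by
      have := Function.invFun_eq (f := fun g : H => ρ g) (b := y) (ht hy)
      exact this
    refine ⟨Function.invFun (fun g : H => ρ g) y,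
      Finset.mem_image_of_mem _ (htf.mem_toFinset.mpr hy), ?_⟩
    set h := Function.invFun (fun g : H => ρ g) y with hh
    have e : ρ (h⁻¹ * g) - 1 = ρ h⁻¹ * (ρ g - ρ h) := by
      rw [map_mul, mul_sub, rho_inv]
    rw [e, norm_left ρ hρ, hinv, ← dist_eq_norm]
    exact hgy

end Pool.Agent.Helper93.GT
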